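import Pool.Agent.W726.NS.MainAbs
import Pool.Agent.W726.NS.Reg
import Pool.Agent.W726.NS.Stab

set_option autoImplicit false

open Filter Topology
open scoped MatrixGroups

namespace Pool.Agent.Results.MP_7a8f48_an.ConvergenceGroups

/-- Möbius disjointness of a unital `*`-endomorphism, in norm and for every bounded functional. -/
def MobiusDisjoint {U : Type} [CStarAlgebra U] (α : U →⋆ₐ[ℂ] U) : Prop :=
  ∀ x : U,
    Tendsto (fun N : ℕ => (1 / (N : ℝ)) *
      ‖∑ n ∈ Finset.Icc 1 N, ((ArithmeticFunction.moebius n : ℤ) : ℂ) • (α^[n]) x‖) atTop (𝓝 0) ∧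
    ∀ ρ : U →L[ℂ] ℂ, Tendsto (fun N : ℕ => (1 / (N : ℂ)) *
      ∑ n ∈ Finset.Icc 1 N, ((ArithmeticFunction.moebius n : ℤ) : ℂ) * ρ ((α^[n]) x)) atTop (𝓝 0)

/-- `α` is Möbius disjoint, together with each system `(B, β)` which is generated over its fixed
points by an equivariant image of `(A, α)` (the products `ι a * w` with `β w = w` span a dense
subspace of `B`), and together with each system `(W, γ)` which embeds in such a `(B, β)`.
With `B = A` this contains `α` and its restrictions to invariant C*-subalgebras; other examples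
are the inner automorphism of the crossed product of `A` by `α`, and `α ⊗ id`. -/
def AllDisjoint {A : Type} [CStarAlgebra A] (α : A →⋆ₐ[ℂ] A) : Prop :=
  MobiusDisjoint α ∧
  ∀ (B : Type) [CStarAlgebra B] (β : B →⋆ₐ[ℂ] B) (ι : A →⋆ₐ[ℂ] B),
    (∀ a, β (ι a) = ι (α a)) →
    (Submodule.span ℂ {x : B | ∃ a w, β w = w ∧ x = ι a * w}).topologicalClosure = ⊤ →
    MobiusDisjoint β ∧
    ∀ (W : Type) [CStarAlgebra W] (γ : W →⋆ₐ[ℂ] W) (κ : W →⋆ₐ[ℂ] B), Function.Injective κ →
      (∀ w, κ (γ w) = β (κ w)) → MobiusDisjoint γ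

/-- `(A, u, τ)` is the reduced C*-algebra of the group `G`, twisted by a cocycle with values in the
circle: the `u g` are unitaries which multiply like the elements of `G` up to scalars of modulus
one, their span is dense in `A`, and the functional `τ` has value one at `1`, zero at each `u g` with
`g ≠ 1`, and a positive value at `a* a` for each `a ≠ 0`. -/
structure RedAlg {A G : Type} [CStarAlgebra A] [Group G] (u : G → A) (τ : A →L[ℂ] ℂ) : Prop where
  unit : ∀ g, u g ∈ unitary A
  mul : ∀ g h, ∃ c : ℂ, ‖c‖ = 1 ∧ u (g * h) = c • (u g * u h)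
  dense : (Submodule.span ℂ (Set.range u)).topologicalClosure = ⊤
  one : τ 1 = 1
  zero : ∀ g, g ≠ 1 → τ (u g) = 0
  pos : ∀ a : A, a ≠ 0 → ∃ r : ℝ, 0 < r ∧ τ (star a * a) = r

/-- `α` covers the automorphism `σ` of `G`: it maps each `u g` to a multiple, by a scalar of modulus
one, of `u (σ g)` -/
def Covers {A G : Type} [CStarAlgebra A] [Group G] (u : G → A) (σ : MulAut G) (α : A →⋆ₐ[ℂ] A) :
    Prop :=
  ∀ g : G, ∃ c : ℂ, ‖c‖ = 1 ∧ α (u g) = c • u (σ g)

/-- `G` acts on `X` by homeomorphisms, as a convergence group: each sequence of distinct elements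
has a subsequence which converges to a point `a`, uniformly off each neighbourhood of a point
`b`. -/
def ConvergenceAction (G X : Type) [Group G] [TopologicalSpace X] [MulAction G X] : Prop :=
  (∀ g : G, Continuous fun p : X => g • p) ∧
  ∀ x : ℕ → G, Function.Injective x → ∃ φ : ℕ → ℕ, StrictMono φ ∧ ∃ a b : X,
    ∀ U ∈ 𝓝 a, ∀ V ∈ 𝓝 b, ∀ᶠ n in atTop, ∀ p : X, p ∉ V → x (φ n) • p ∈ U

/-- a subgroup is virtually cyclic: a cyclic group meets it in a subgroup of finite index -/
def VirtCyclic {G : Type} [Group G] (H : Subgroup G) : Prop :=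
  ∃ c : G, (Subgroup.zpowers c).relIndex H ≠ 0

open Pool.Agent.Helper188.NCM

theorem mobiusDisjoint_of {U : Type} [CStarAlgebra U] {α : U →⋆ₐ[ℂ] U} (h : ∀ x, PP α x) :
    MobiusDisjoint α := by
  intro x
  have h1 := (h x).tendsto
  refine ⟨h1, fun ρ => ?_⟩
  have h2 : Tendsto (fun N : ℕ => ‖ρ‖ * ((1 / (N : ℝ)) *
      ‖∑ n ∈ Finset.Icc 1 N, mob n • (α^[n]) x‖)) atTop (𝓝 0) := by
    simpa using h1.const_mul ‖ρ‖
  refine squeeze_zero_norm (fun N => ?_) h2
  have e : ∑ n ∈ Finset.Icc 1 N, ((ArithmeticFunction.moebius n : ℤ) : ℂ) * ρ ((α^[n]) x)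
      = ρ (∑ n ∈ Finset.Icc 1 N, mob n • (α^[n]) x) := by
    rw [map_sum]
    exact Finset.sum_congr rfl fun n _ => by rw [map_smul, smul_eq_mul]; rfl
  rw [e, norm_mul, norm_div, norm_one, Complex.norm_natCast]
  calc 1 / (N : ℝ) * ‖ρ (∑ n ∈ Finset.Icc 1 N, mob n • (α^[n]) x)‖
      ≤ 1 / (N : ℝ) * (‖ρ‖ * ‖∑ n ∈ Finset.Icc 1 N, mob n • (α^[n]) x‖) := by
        gcongr
        exact ρ.le_opNorm _
    _ = _ := by ring

theorem PP_embed {U W : Type} [CStarAlgebra U] [CStarAlgebra W] {α : U →⋆ₐ[ℂ] U}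
    (h : ∀ x, PP α x) (β : W →⋆ₐ[ℂ] W) (ι : W →⋆ₐ[ℂ] U) (hι : Function.Injective ι)
    (hβ : ∀ w, ι (β w) = α (ι w)) : ∀ w, PP β w := by
  intro w ε hε
  obtain ⟨N0, h0⟩ := h (ι w) ε hε
  refine ⟨N0, fun N hN => le_trans (le_of_eq ?_) (h0 N hN)⟩
  have hn : ∀ n : ℕ, ι ((β^[n]) w) = (α^[n]) (ι w) := by
    intro n
    induction n with
    | zero => rfl
    | succ n ih => rw [Function.iterate_succ_apply', Function.iterate_succ_apply', hβ, ih]
  rw [← NonUnitalStarAlgHom.norm_map ι hι, map_sum]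
  congr 1
  exact Finset.sum_congr rfl fun n _ => by rw [map_smul, hn]

theorem allDisjoint_of {A : Type} [CStarAlgebra A] {α : A →⋆ₐ[ℂ] A} (h : ∀ x, PP α x) :
    AllDisjoint α := by
  refine ⟨mobiusDisjoint_of h, fun B _ β ι hι hgen => ?_⟩
  have hB := Pool.Agent.W726.NS.pp_ext h β ι hι hgen
  exact ⟨mobiusDisjoint_of hB, fun W _ γ κ hκ hγ => mobiusDisjoint_of (PP_embed hB γ κ hκ hγ)⟩

/-- **Möbius disjointness for automorphisms of reduced C*-algebras of convergence groups.**

Let `G` be a countable group which acts on an infinite compact Hausdorff space as a convergence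
group with virtually cyclic point stabilisers (for example a subgroup of a word hyperbolic group),
and let `A` be the reduced C*-algebra of `G`, possibly twisted by a cocycle. Each endomorphism `α` of
`A` which covers an automorphism of `G` is Möbius disjoint, in norm and for each bounded functional,
and so is each system generated by it over its fixed points, and each subsystem of such a
system. -/
theorem result (A G : Type) [CStarAlgebra A] [Group G] [Countable G] (u : G → A) (τ : A →L[ℂ] ℂ)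
    (hu : RedAlg u τ) (X : Type) [TopologicalSpace X] [CompactSpace X] [T2Space X] [Infinite X]
    [MulAction G X] (hG : ConvergenceAction G X)
    (hstab : ∀ p : X, VirtCyclic (MulAction.stabilizer G p))
    (σ : MulAut G) (α : A →⋆ₐ[ℂ] A) (hα : Covers u σ α) :
    AllDisjoint α := by
  have hu' : Pool.Agent.W726.NS.RedAlg u τ := ⟨hu.unit, hu.mul, hu.dense, hu.one, hu.zero, hu.pos⟩
  refine allDisjoint_of (Pool.Agent.W726.NS.pp_abs (X := X) hu' hG (fun p => ?_) σ α hα)
  obtain ⟨c, hc⟩ := hstab p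
  exact Pool.Agent.W726.NS.cycCover_of_relIndex hc

/-- The reduced C*-algebra of `G`, as the closed `*`-algebra generated by the left translations
`lam g` of `ℓ²(G)`, with its canonical trace, is an example. -/
theorem regular (G : Type) [Group G] :
    RedAlg (Pool.Agent.W726.NS.lam : G → Pool.Agent.H379R3.CS.reducedCStar G)
      (Pool.Agent.W726.NS.trc G) :=
  have h := Pool.Agent.W726.NS.redAlg_regular G
  ⟨h.unit, h.mul, h.dense, h.one, h.zero, h.pos⟩

/-- An explicit class of examples: the discrete subgroups of `SL(2, ℝ)`, which act on the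
projective line as convergence groups with virtually cyclic point stabilisers. -/
theorem fuchsian (Γ : Subgroup SL(2, ℝ)) [DiscreteTopology Γ] (A : Type) [CStarAlgebra A]
    (u : Γ → A) (τ : A →L[ℂ] ℂ) (hu : RedAlg u τ) (σ : MulAut Γ)
    (α : A →⋆ₐ[ℂ] A) (hα : Covers u σ α) : AllDisjoint α := by
  have hfin := Pool.Agent.W726.NS.finBdd_of_discrete Γ
  have : Countable Γ := Pool.Agent.W726.NS.countable_of_finBdd Γ hfin
  have hu' : Pool.Agent.W726.NS.RedAlg u τ := ⟨hu.unit, hu.mul, hu.dense, hu.one, hu.zero, hu.pos⟩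
  exact allDisjoint_of (Pool.Agent.W726.NS.pp_abs (X := Pool.Agent.W726.NS.P1) hu'
    (Pool.Agent.W726.NS.convergence_of_finBdd Γ hfin)
    (fun p => (Pool.Agent.W726.NS.cycIn_stab Γ hfin p).cover) σ α hα)

end Pool.Agent.Results.MP_7a8f48_an.ConvergenceGroups
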